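import Pool.Agent.H76.PS.Defs2

/-!
# Project PS, job D3: the `2 ^ k`-th roots of the `2`-units are unramified at the odd primes
-/

set_option autoImplicit false

namespace Pool.Agent.K7.H34.PS

open Pool.Agent.Y715.Gi (QB KK GK)
open Pool.Agent.Y715.Nr Pool.Agent.W237.RK
open Pool.Agent.Z384 (II DD DDs Fld)
open Pool.Agent.Y715.Lc (norm_two_odd)
open Pool.Agent.H76.PS

/-- integral elements have norm at most one -/
lemma norm_le_of_int {p : ℕ} [Fact p.Prime] {x : PadicAlgCl p} (hx : IsIntegral ℤ x) : ‖x‖ ≤ 1 := by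
  have h : IsIntegral (NormedField.valuation (K := PadicAlgCl p)).integer x := hx.tower_top
  have h2 := (Valuation.integer.integers (NormedField.valuation (K := PadicAlgCl p))).mem_of_integral h
  rw [Valuation.mem_integer_iff, NormedField.valuation_apply] at h2
  exact_mod_cast h2

/-- a `2 ^ k`-th root of unity which is congruent to one is one, `p` odd -/
lemma root_one {p : ℕ} [Fact p.Prime] (hp : p ≠ 2) (k : ℕ) : ∀ z : PadicAlgCl p, z ^ 2 ^ k = 1 →
    ‖z - 1‖ < 1 → z = 1 := by
  induction k with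
  | zero => intro z hz _; simpa using hz
  | succ k ih =>
    intro z hz h1
    have hn : ‖z + 1‖ ≤ 1 := by
      have e : z + 1 = (z - 1) + 2 := by ring
      rw [e]
      refine (IsUltrametricDist.norm_add_le_max _ _).trans (max_le h1.le (norm_two_odd hp).le)
    have h2 : z ^ 2 = 1 := by
      refine ih _ (by rw [← pow_mul, ← pow_succ']; exact hz) ?_
      have e : z ^ 2 - 1 = (z - 1) * (z + 1) := by ring
      rw [e, norm_mul]
      calc ‖z - 1‖ * ‖z + 1‖ ≤ ‖z - 1‖ * 1 := by gcongr
        _ < 1 := by rw [mul_one]; exact h1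
    have h2' : (z - 1) * (z + 1) = 0 := by linear_combination h2
    rcases mul_eq_zero.1 h2' with h3 | h3
    · exact sub_eq_zero.1 h3
    · exfalso
      rw [eq_neg_of_add_eq_zero_left h3] at h1
      have e : (-1 - 1 : PadicAlgCl p) = -2 := by ring
      rw [e, norm_neg, norm_two_odd hp] at h1
      exact lt_irrefl _ h1

theorem stD3 : StD3 := by
  intro s p _ ι hp σ hσ x k hx hfix
  obtain ⟨τ, hτ, hin⟩ := hσ
  obtain ⟨hx0, j, h1, h2⟩ := hx
  have hb : ∀ y : QB, IsIntegral ℤ (2 ^ j * y) → ‖ι y‖ ≤ 1 := by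
    intro y hy
    have h3 : IsIntegral ℤ (ι (2 ^ j * y)) := by
      have := hy.map (ι : QB →+* PadicAlgCl p).toIntAlgHom
      exact this
    have h4 := norm_le_of_int h3
    rw [map_mul, map_pow, map_ofNat, norm_mul, norm_pow, norm_two_odd hp, one_pow, one_mul] at h4
    exact h4
  have h3 := hb _ h1
  have h4 := hb _ h2
  have h5 : ‖ι (x ^ 2 ^ k)‖ = 1 := by
    refine le_antisymm h3 ?_
    rw [map_inv₀, norm_inv] at h4
    have h6 : 0 < ‖ι (x ^ 2 ^ k)‖ := norm_pos_iff.2 (by rwa [Ne, map_eq_zero])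
    by_contra h7
    push Not at h7
    have := one_lt_inv_iff₀.2 ⟨h6, h7⟩
    linarith
  have h6 : ‖ι x‖ = 1 := by
    rw [map_pow, norm_pow] at h5
    exact (pow_eq_one_iff_of_nonneg (norm_nonneg _) (by positivity)).1 h5
  have hne : ι x ≠ 0 := norm_pos_iff.1 (by rw [h6]; norm_num)
  have h7 : τ (ι x) / ι x = 1 := by
    refine root_one hp k _ ?_ ?_
    · rw [div_pow, ← map_pow, ← map_pow, hτ, hfix, div_self]
      rw [map_pow]; exact pow_ne_zero _ hne
    · have h8 := hin (ι x) h6.le
      have e : τ (ι x) / ι x - 1 = (τ (ι x) - ι x) / ι x := by field_simp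
      rw [e, norm_div, h6, div_one]
      exact h8
  rw [div_eq_one_iff_eq hne, hτ] at h7
  exact ι.injective h7

end Pool.Agent.K7.H34.PS
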