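import Pool.Agent.H76.PS.Defs2
import Pool.Agent.R384.Z.Gen

/-!
# Project PS, job E0: elementary facts on the maximal `2`-extension unramified outside `2`
-/

set_option autoImplicit false

namespace Pool.Agent.K7.H34.PS

open Pool.Agent.Y715.Gi (QB KK GK)
open Pool.Agent.Y715.Nr Pool.Agent.W237.RK
open Pool.Agent.Y715.Df (Cmp exists_cmp gh)
open Pool.Agent.Z384 (II DD DDs Fld II_conj surj)
open Pool.Agent.H76.PS

variable {s : QB}

lemma te_top : TE (⊤ : Subgroup (GK s)) where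
  isOpen := isOpen_univ
  normal := inferInstance
  index := ⟨0, by rw [Subgroup.index_top, pow_zero]⟩
  unramified := fun _ _ _ _ _ _ => trivial

/-- a normal open subgroup with quotient a `2`-group -/
lemma te_of {N : Subgroup (GK s)} (ho : IsOpen (N : Set (GK s))) (hn : N.Normal) {a : ℕ}
    (hp : ∀ g : GK s, g ^ 2 ^ a ∈ N)
    (hu : ∀ (p : ℕ) [Fact p.Prime] (ι : QB →ₐ[ℚ] PadicAlgCl p), p ≠ 2 →
    ∀ σ ∈ (II ι : Set (GK s)), σ ∈ N) : TE N where
  isOpen := ho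
  normal := hn
  index := by
    have hfin : Finite (GK s ⧸ N) := Subgroup.quotient_finite_of_isOpen N ho
    have : Fact (Nat.Prime 2) := ⟨Nat.prime_two⟩
    have hp2 : IsPGroup 2 (GK s ⧸ N) := by
      intro x
      obtain ⟨g, rfl⟩ := QuotientGroup.mk_surjective x
      refine ⟨a, ?_⟩
      rw [← QuotientGroup.mk_pow]
      exact (QuotientGroup.eq_one_iff _).2 (hp g)
    obtain ⟨c, hc⟩ := IsPGroup.iff_card.1 hp2
    exact ⟨c, hc⟩
  unramified := hu

lemma te_pow {N : Subgroup (GK s)} (hN : TE N) : ∃ a : ℕ, ∀ g : GK s, g ^ 2 ^ a ∈ N := by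
  obtain ⟨a, ha⟩ := hN.index
  have := hN.normal
  refine ⟨a, fun g => ?_⟩
  rw [← ha]
  exact N.pow_index_mem g

lemma te_inf {N M : Subgroup (GK s)} (hN : TE N) (hM : TE M) : TE (N ⊓ M) := by
  obtain ⟨a, ha⟩ := te_pow hN
  obtain ⟨b, hb⟩ := te_pow hM
  have := hN.normal
  have := hM.normal
  refine te_of (a := a + b) (hN.isOpen.inter hM.isOpen) inferInstance (fun g => ⟨?_, ?_⟩)
    fun p _ ι hp σ hσ => ⟨hN.unramified p ι hp σ hσ, hM.unramified p ι hp σ hσ⟩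
  · rw [pow_add, pow_mul]
    exact pow_mem (ha g) _
  · rw [pow_add, mul_comm, pow_mul]
    exact pow_mem (hb g) _

lemma nf_le {N : Subgroup (GK s)} (hN : TE N) : Nf s ≤ N := sInf_le hN

/-- clause 3 -/
lemma exists_te (U : Subgroup (GK s)) (hU : IsOpen (U : Set (GK s))) (hN : Nf s ≤ U) :
    ∃ N, TE N ∧ N ≤ U := by
  have hK : IsCompact ((U : Set (GK s))ᶜ) := hU.isClosed_compl.isCompact
  have : Nonempty {N : Subgroup (GK s) // TE N} := ⟨⟨⊤, te_top⟩⟩
  have key := hK.elim_directed_family_closed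
    (fun N : {N : Subgroup (GK s) // TE N} => ((N : Subgroup (GK s)) : Set (GK s)))
    (fun N => Subgroup.isClosed_of_isOpen _ N.2.isOpen) ?_ ?_
  · obtain ⟨N, hN'⟩ := key
    refine ⟨N, N.2, fun x hx => ?_⟩
    by_contra h
    have : x ∈ (U : Set (GK s))ᶜ ∩ ((N : Subgroup (GK s)) : Set (GK s)) := ⟨h, hx⟩
    rw [hN'] at this
    exact this
  · ext x
    simp only [Set.mem_inter_iff, Set.mem_compl_iff, Set.mem_iInter, Set.mem_empty_iff_false,
      iff_false, not_and]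
    intro hx hall
    refine hx (hN ?_)
    rw [Nf, Subgroup.mem_sInf]
    intro N hN
    exact hall ⟨N, hN⟩
  · intro N M
    exact ⟨⟨N ⊓ M, te_inf N.2 M.2⟩, fun x hx => hx.1, fun x hx => hx.2⟩

/-- clause 2 -/
lemma pow2_gs : Pow2 (Gs s) := by
  intro U hU
  have ho : IsOpen ((U.comap (QuotientGroup.mk' (Nf s)) : Subgroup (GK s)) : Set (GK s)) :=
    hU.preimage continuous_quotient_mk'
  have hle : Nf s ≤ U.comap (QuotientGroup.mk' (Nf s)) := by
    intro x hx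
    rw [Subgroup.mem_comap]
    have : QuotientGroup.mk' (Nf s) x = 1 := (QuotientGroup.eq_one_iff x).2 hx
    rw [this]
    exact one_mem U
  obtain ⟨N, hN, hNU⟩ := exists_te _ ho hle
  obtain ⟨a, ha⟩ := hN.index
  have h1 := Subgroup.index_dvd_of_le hNU
  rw [ha, Subgroup.index_comap_of_surjective _ (QuotientGroup.mk'_surjective _)] at h1
  obtain ⟨b, -, hb⟩ := (Nat.dvd_prime_pow Nat.prime_two).1 h1
  exact ⟨b, hb⟩

/-- clause 4 -/
lemma clause4 (U : Subgroup (GK s)) (hU : IsOpen (U : Set (GK s))) (hN : Nf s ≤ U)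
    (φ : U → ZMod 2) (hφ : φ ∈ HS U)
    (hr : ∀ (p : ℕ) [Fact p.Prime] (ι : QB →ₐ[ℚ] PadicAlgCl p), p ≠ 2 →
        ∀ σ : U, (σ : GK s) ∈ (II ι : Set (GK s)) → φ σ = 0) :
      ∀ σ : U, (σ : GK s) ∈ Nf s → φ σ = 0 := by
  obtain ⟨N, hTE, hNU⟩ := exists_te U hU hN
  obtain ⟨a, ha⟩ := te_pow hTE
  obtain ⟨hlc, hadd⟩ := hφ
  have h1 : φ 1 = 0 := by
    have := hadd 1 1
    rw [mul_one] at this
    exact (left_eq_add.1 this)
  -- the kernel
  let W : Subgroup (GK s) :=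
    { carrier := {x | ∃ h : x ∈ U, φ ⟨x, h⟩ = 0}
      mul_mem' := by
        rintro x y ⟨hx, hx'⟩ ⟨hy, hy'⟩
        refine ⟨mul_mem hx hy, ?_⟩
        have := hadd ⟨x, hx⟩ ⟨y, hy⟩
        rw [hx', hy', add_zero] at this
        exact this
      one_mem' := ⟨one_mem U, h1⟩
      inv_mem' := by
        rintro x ⟨hx, hx'⟩
        refine ⟨inv_mem hx, ?_⟩
        have := hadd ⟨x, hx⟩ ⟨x⁻¹, inv_mem hx⟩
        rw [hx', zero_add] at this
        rw [← this]
        have e : (⟨x, hx⟩ : U) * ⟨x⁻¹, inv_mem hx⟩ = 1 := by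
          apply Subtype.ext
          show x * x⁻¹ = 1
          group
        rw [e, h1] }
  have hW : ∀ x, x ∈ W ↔ ∃ h : x ∈ U, φ ⟨x, h⟩ = 0 := fun x => Iff.rfl
  have hWo : IsOpen (W : Set (GK s)) := by
    have h2 : IsOpen {x : U | φ x = 0} := hlc.isOpen_fiber 0
    have h3 := hU.isOpenEmbedding_subtypeVal.isOpenMap _ h2
    convert h3 using 1
    ext x
    constructor
    · rintro ⟨h, h'⟩
      exact ⟨⟨x, h⟩, h', rfl⟩
    · rintro ⟨⟨y, hy⟩, h', rfl⟩
      exact ⟨hy, h'⟩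
  have hWf : W.FiniteIndex := by
    have := Subgroup.quotient_finite_of_isOpen W hWo
    exact Subgroup.finiteIndex_of_finite_quotient
  have hCf : W.normalCore.FiniteIndex := inferInstance
  have hWc : IsClosed (W : Set (GK s)) := Subgroup.isClosed_of_isOpen _ hWo
  have hCo : IsOpen (W.normalCore : Set (GK s)) :=
    Subgroup.isOpen_of_isClosed_of_finiteIndex _ (W.normalCore_isClosed hWc)
  have hCn : W.normalCore.Normal := W.normalCore_normal
  have hNn := hTE.normal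
  have hT : TE (W.normalCore) := by
    refine te_of (a := a + 1) hCo hCn (fun g => ?_) fun p _ ι hp σ hσ => ?_
    · intro r
      have h2 : r * g ^ 2 ^ a * r⁻¹ ∈ N := hNn.conj_mem _ (ha g) r
      have e : r * g ^ 2 ^ (a + 1) * r⁻¹ = (r * g ^ 2 ^ a * r⁻¹) * (r * g ^ 2 ^ a * r⁻¹) := by
        rw [pow_succ, pow_mul]
        group
      rw [e]
      refine ⟨mul_mem (hNU h2) (hNU h2), ?_⟩
      have h3 := hadd ⟨_, hNU h2⟩ ⟨_, hNU h2⟩
      have h4 : ∀ z : ZMod 2, z + z = 0 := by decide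
      rw [h4] at h3
      exact h3
    · intro r
      have h2 : r * σ * r⁻¹ ∈ (II (ι.comp (gh r⁻¹)) : Set (GK s)) := by
        have := II_conj hσ r⁻¹
        rwa [inv_inv] at this
      have h3 : r * σ * r⁻¹ ∈ U := hNU (hTE.unramified p _ hp _ h2)
      exact ⟨h3, hr p _ hp ⟨_, h3⟩ h2⟩
  intro σ hσ
  have h2 : (σ : GK s) ∈ W := W.normalCore_le (nf_le hT hσ)
  obtain ⟨h3, h4⟩ := h2
  exact h4

theorem stE0 : StE0 := by
  intro s d hs hF
  refine ⟨inferInstance, pow2_gs, exists_te, fun U hU hN φ hφ hr => clause4 U hU hN φ hφ hr, ?_⟩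
  intro ι₀ U hU hN g
  obtain ⟨N, hTE, hNU⟩ := exists_te U hU hN
  obtain ⟨a, ha⟩ := hTE.index
  obtain ⟨δ, hδ, h⟩ := surj hs hF hTE.normal ha hTE.isOpen hTE.unramified ι₀ g
  exact ⟨δ, hδ, hNU h⟩

end Pool.Agent.K7.H34.PS
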